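import Pool.Agent.X260.QP.Qp2

set_option autoImplicit false

/-!
# MP_2f4918_al: for classes of twisted involutions, (QP1) implies (QP2)
-/

namespace Pool.Agent.Results.MP_2f4918_al.QP1ImpliesQP2

open Pool.Agent.X260.QP

theorem result {B : Type*} {M : CoxeterMatrix B} {W : Type*} [Group W] (cs : CoxeterSystem M W)
    (K : Set (WPlus cs)) (hclass : IsWClass cs K) (hinv : K ⊆ IPlus cs) (h : QP1 cs K) :
    QP2 cs K :=
  QP1_QP2 K (class_closed hclass) (fun _ hw => hinv hw) h

end Pool.Agent.Results.MP_2f4918_al.QP1ImpliesQP2
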